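import Pool.Agent.Lib.KP.SpecF

/-!
# KP (MP_64edc4_ag), F2: the conclusion in dimension two
-/

set_option autoImplicit false

open Set Filter Topology Metric

namespace KP

private theorem f2_sgn {n : ℕ} {A W W' : Set (Cn n)} (h : Sgn A W) (hW : W' ⊆ W) : Sgn A W' := by
  obtain ⟨m, f, h1, h2⟩ := h
  exact ⟨m, f, fun k => (h1 k).mono hW, fun z hz z' hz' => h2 z (hW hz) z' (hW hz')⟩

/-- `F2`: dimension two. -/
theorem tF2 (h1 : S_VSing) (h2 : S_BdMax) (h3 : S_SgU) (h4 : S_LT2) (h5 : S_End2) (h6 : S_EndB) :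
    S_F2 := by
  intro N I U G K hU hG hs
  obtain ⟨J, hJ, g, hg1, hg2⟩ := h1 N 2 I U hU
  obtain ⟨c, hc0, -, hpk⟩ := h2 N 2 J U two_pos hJ g hg1 hg2
  obtain ⟨r, hr, hrW⟩ := Metric.isOpen_iff.1 c.hW 0 hc0
  have hS : Sgn (c.pre U) (ball 0 r) := f2_sgn (h3 N 2 _ U c hs) hrW
  obtain ⟨e, R, ρ, hm, he0, heA, hρ, hρW, hR, hRo, hRo', hP⟩ :=
    h4 (c.pre U) r hr (hJ.isOpen_pre c) hS hpk
  have hBd : BdR (c.comp e) U R := by
    refine ⟨⟨he0, hrW (hm he0)⟩, ρ, hρ, ?_, ?_, hRo, ?_⟩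
    · intro w hw
      exact ⟨hρW hw, hrW (hm (hρW hw))⟩
    · rw [Chart.comp_pre]; exact hR
    · rw [Chart.comp_pre]; exact hRo'
  rcases hP with hP | hP | hP
  · exact h5 N J U G K hJ hG (c.comp e) R hBd (Or.inl hP)
  · exact h5 N J U G K hJ hG (c.comp e) R hBd (Or.inr hP)
  · exfalso
    refine h6 N J U G K hJ hG (c.comp e) R hBd.zero ?_ hRo ?_ hP
    · intro h
      exact heA ⟨hrW (hm he0), h⟩
    · rw [Chart.comp_pre]
      exact hR.trans inter_subset_left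

end KP
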